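import Mathlib

open Filter Topology Set
open scoped ENNReal NNReal ZeroAtInfty

namespace Pool.Agent.Results.MP_39b2af_an.ExactExponent

/-! ## Definitions used in the statement -/

/-- The lower `q`-density of a set `A` of natural numbers:
`liminf_n |A ∩ [1, n^q]| / n`. -/
noncomputable def lowerDensity (q : ℝ) (A : Set ℕ) : ℝ≥0∞ :=
  liminf (fun n : ℕ => ((A ∩ {j : ℕ | 1 ≤ j ∧ (j : ℝ) ≤ (n : ℝ) ^ q}).ncard : ℝ≥0∞) /
    (n : ℝ≥0∞)) atTop

/-- Any two distinct points of `S` form a `lam`-distributionally scrambled pair for `T`, with the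
common threshold `σ`. -/
def ScrambledWith {X : Type*} [PseudoMetricSpace X] (lam : ℝ) (T : X → X) (S : Set X)
    (σ : ℝ) : Prop :=
  ∀ x ∈ S, ∀ y ∈ S, x ≠ y →
    lowerDensity (1 / lam) {j : ℕ | dist (T^[j] x) (T^[j] y) < σ} = 0 ∧
    ∀ ε : ℝ, 0 < ε → lowerDensity (1 / lam) {j : ℕ | ε < dist (T^[j] x) (T^[j] y)} = 0

/-- `lam`-distributional chaos. -/
def DistChaotic {X : Type*} [PseudoMetricSpace X] (lam : ℝ) (T : X → X) : Prop :=
  ∃ S : Set X, ¬ S.Countable ∧ ∃ σ : ℝ, 0 < σ ∧ ScrambledWith lam T S σ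

/-- Dense `lam`-distributional chaos. -/
def DenselyDistChaotic {X : Type*} [PseudoMetricSpace X] (lam : ℝ) (T : X → X) : Prop :=
  ∃ S : Set X, Dense S ∧ ¬ S.Countable ∧ ∃ σ : ℝ, 0 < σ ∧ ScrambledWith lam T S σ

/-- The sequence space `X`, whose vectors have coordinates `c x n`, carries a weighted backward
shift `(T x)_n = w_n x_{n+1}`, with positive bounded weights, that is densely
`lam`-distributionally chaotic but not `lam'`-distributionally chaotic for any `0 < lam' < lam`. -/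
def HasExactShift (𝕜 : Type*) [RCLike 𝕜] (X : Type*) [NormedAddCommGroup X] [NormedSpace 𝕜 X]
    (c : X → ℕ → 𝕜) (lam : ℝ) : Prop :=
  ∃ (w : ℕ → ℝ) (T : X →L[𝕜] X),
    (∀ n, 0 < w n) ∧ (∃ C : ℝ, ∀ n, w n ≤ C) ∧
    (∀ x n, c (T x) n = ((w n : ℝ) : 𝕜) * c x (n + 1)) ∧
    DenselyDistChaotic lam T ∧
    ∀ lam' : ℝ, 0 < lam' → lam' < lam → ¬ DistChaotic lam' T

/-! ## Densities -/

lemma lowerDensity_eq_zero {q : ℝ} {A : Set ℕ} (φ : ℕ → ℕ) (hφ : Tendsto φ atTop atTop)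
    (h : ∃ᶠ k in atTop,
      (k + 1) * (A ∩ {j : ℕ | 1 ≤ j ∧ (j : ℝ) ≤ ((φ k : ℕ) : ℝ) ^ q}).ncard ≤ φ k) :
    lowerDensity q A = 0 := by
  by_contra hne
  obtain ⟨N, hN⟩ := ENNReal.exists_inv_nat_lt hne
  have hfreq : ∃ᶠ n : ℕ in atTop,
      ((A ∩ {j : ℕ | 1 ≤ j ∧ (j : ℝ) ≤ (n : ℝ) ^ q}).ncard : ℝ≥0∞) / (n : ℝ≥0∞)
        ≤ (N : ℝ≥0∞)⁻¹ := by
    apply hφ.frequently
    refine (h.and_eventually ((eventually_ge_atTop N).and (hφ.eventually_ge_atTop 1))).mono ?_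
    rintro k ⟨hk, hkN, hk1⟩
    set a := (A ∩ {j : ℕ | 1 ≤ j ∧ (j : ℝ) ≤ ((φ k : ℕ) : ℝ) ^ q}).ncard with ha
    have h1 : N * a ≤ φ k := le_trans (Nat.mul_le_mul_right _ (by omega)) hk
    rcases Nat.eq_zero_or_pos N with hN0 | hN0
    · subst hN0
      simp
    rw [ENNReal.div_le_iff (by positivity) (by simp), mul_comm, ← div_eq_mul_inv,
      ENNReal.le_div_iff_mul_le (by left; positivity) (by left; simp), mul_comm]
    exact_mod_cast h1
  exact absurd (Filter.liminf_le_of_frequently_le' hfreq) (not_le.mpr hN)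

lemma lowerDensity_pos {q : ℝ} {A : Set ℕ}
    (h : ∀ᶠ n : ℕ in atTop, n ≤ 4 * (A ∩ {j : ℕ | 1 ≤ j ∧ (j : ℝ) ≤ (n : ℝ) ^ q}).ncard) :
    0 < lowerDensity q A := by
  have h4 : (4 : ℝ≥0∞)⁻¹ ≤ lowerDensity q A := by
    apply Filter.le_liminf_of_le
    · isBoundedDefault
    filter_upwards [h, eventually_ge_atTop 1] with n hn hn1
    set a := (A ∩ {j : ℕ | 1 ≤ j ∧ (j : ℝ) ≤ (n : ℝ) ^ q}).ncard with ha
    rw [ENNReal.le_div_iff_mul_le (by left; positivity) (by left; simp), mul_comm,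
      ← div_eq_mul_inv, ENNReal.div_le_iff (by norm_num) (by norm_num), mul_comm]
    exact_mod_cast hn
  exact lt_of_lt_of_le (by simp) h4

/-! ## The parameters -/

/-- Block parameters for the exponent `lam`. -/
structure Params (lam : ℝ) where
  A : ℕ → ℕ
  L : ℕ → ℕ
  hL1 : ∀ k, 1 ≤ L k
  hup : ∀ k, (8 : ℝ) ^ (k + 1) * (L k : ℝ) ≤ (A k : ℝ) ^ lam
  hlow : ∀ k, (A k : ℝ) ^ lam ≤ 2 * 8 ^ (k + 1) * (L k : ℝ)
  hbig : ∀ k, (2 : ℝ) ^ ((k + 1) ^ 2) ≤ (A k : ℝ)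
  hnext : ∀ k : ℕ, ((k : ℝ) + 2) * (2 * (A k : ℝ)) ≤ (L (k + 1) : ℝ) ^ lam

lemma exists_step {lam : ℝ} (h0 : 0 < lam) (k : ℕ) (M : ℝ) :
    ∃ B : ℕ, (2 : ℝ) ^ ((k + 1) ^ 2) ≤ (B : ℝ) ∧ (8 : ℝ) ^ (k + 1) ≤ (B : ℝ) ^ lam ∧
      M ≤ ((⌊(B : ℝ) ^ lam / 8 ^ (k + 1)⌋₊ : ℕ) : ℝ) ^ lam := by
  have t0 : Tendsto (fun B : ℕ => (B : ℝ)) atTop atTop := tendsto_natCast_atTop_atTop
  have t1 : Tendsto (fun B : ℕ => (B : ℝ) ^ lam) atTop atTop :=
    (tendsto_rpow_atTop h0).comp t0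
  have t2 : Tendsto (fun B : ℕ => (B : ℝ) ^ lam / 8 ^ (k + 1)) atTop atTop :=
    t1.atTop_div_const (by positivity)
  have t3 : Tendsto (fun B : ℕ => ⌊(B : ℝ) ^ lam / 8 ^ (k + 1)⌋₊) atTop atTop :=
    tendsto_nat_floor_atTop.comp t2
  have t4 : Tendsto (fun B : ℕ => ((⌊(B : ℝ) ^ lam / 8 ^ (k + 1)⌋₊ : ℕ) : ℝ) ^ lam)
      atTop atTop := t1.comp t3
  have := ((t0.eventually_ge_atTop ((2 : ℝ) ^ ((k + 1) ^ 2))).and
    ((t1.eventually_ge_atTop ((8 : ℝ) ^ (k + 1))).and (t4.eventually_ge_atTop M))).exists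
  exact this

noncomputable def stepFn {lam : ℝ} (h0 : 0 < lam) (k : ℕ) (M : ℝ) : ℕ :=
  (exists_step h0 k M).choose

noncomputable def Aseq {lam : ℝ} (h0 : 0 < lam) : ℕ → ℕ
  | 0 => stepFn h0 0 0
  | (k + 1) => stepFn h0 (k + 1) (((k : ℝ) + 2) * (2 * (Aseq h0 k : ℝ)))

lemma exists_params {lam : ℝ} (h0 : 0 < lam) : Nonempty (Params lam) := by
  have key : ∀ k : ℕ, ∃ M : ℝ, Aseq h0 k = stepFn h0 k M := by
    intro k
    cases k with
    | zero => exact ⟨0, rfl⟩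
    | succ k => exact ⟨_, rfl⟩
  have hb : ∀ k : ℕ, (2 : ℝ) ^ ((k + 1) ^ 2) ≤ (Aseq h0 k : ℝ) := by
    intro k
    obtain ⟨M, hM⟩ := key k
    rw [hM]
    exact (exists_step h0 k M).choose_spec.1
  have h8 : ∀ k : ℕ, (8 : ℝ) ^ (k + 1) ≤ (Aseq h0 k : ℝ) ^ lam := by
    intro k
    obtain ⟨M, hM⟩ := key k
    rw [hM]
    exact (exists_step h0 k M).choose_spec.2.1
  refine ⟨{ A := Aseq h0, L := fun k => ⌊(Aseq h0 k : ℝ) ^ lam / 8 ^ (k + 1)⌋₊, hL1 := ?_,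
            hup := ?_, hlow := ?_, hbig := hb, hnext := ?_ }⟩
  · intro k
    apply Nat.le_floor
    rw [le_div_iff₀ (by positivity)]
    simpa using h8 k
  · intro k
    have := Nat.floor_le (a := (Aseq h0 k : ℝ) ^ lam / 8 ^ (k + 1)) (by positivity)
    rw [le_div_iff₀ (by positivity)] at this
    linarith
  · intro k
    have h1 : (1 : ℝ) ≤ ((⌊(Aseq h0 k : ℝ) ^ lam / 8 ^ (k + 1)⌋₊ : ℕ) : ℝ) := by
      have : 1 ≤ ⌊(Aseq h0 k : ℝ) ^ lam / 8 ^ (k + 1)⌋₊ := by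
        apply Nat.le_floor
        rw [le_div_iff₀ (by positivity)]
        simpa using h8 k
      exact_mod_cast this
    have := Nat.lt_floor_add_one ((Aseq h0 k : ℝ) ^ lam / 8 ^ (k + 1))
    rw [div_lt_iff₀ (by positivity)] at this
    have h8' : (0 : ℝ) < 8 ^ (k + 1) := by positivity
    nlinarith
  · intro k
    exact (exists_step h0 (k + 1) (((k : ℝ) + 2) * (2 * (Aseq h0 k : ℝ)))).choose_spec.2.2

/-! ## Elementary consequences -/

section ParamLemmas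

variable {lam : ℝ} (P : Params lam)

lemma rpow_le_self {lam : ℝ} (h1 : lam ≤ 1) {m : ℕ} (hm : 1 ≤ m) : (m : ℝ) ^ lam ≤ m := by
  have : (m : ℝ) ^ lam ≤ (m : ℝ) ^ (1 : ℝ) :=
    Real.rpow_le_rpow_of_exponent_le (by exact_mod_cast hm) h1
  simpa using this

include P

lemma Params.A_pos (k : ℕ) : 1 ≤ P.A k := by
  have h := P.hbig k
  have h2 : (1 : ℝ) ≤ 2 ^ ((k + 1) ^ 2) := one_le_pow₀ (by norm_num)
  have : (1 : ℝ) ≤ (P.A k : ℝ) := le_trans h2 h
  exact_mod_cast this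

lemma Params.mulL_le (k : ℕ) (h1 : lam ≤ 1) : 8 ^ (k + 1) * P.L k ≤ P.A k := by
  have h := (P.hup k).trans (rpow_le_self h1 (P.A_pos k))
  exact_mod_cast h

lemma Params.L_le_A (k : ℕ) (h1 : lam ≤ 1) : P.L k ≤ P.A k := by
  have h := P.mulL_le k h1
  have : 1 ≤ 8 ^ (k + 1) := Nat.one_le_pow _ _ (by norm_num)
  nlinarith [P.hL1 k]

lemma Params.next (k : ℕ) (h1 : lam ≤ 1) : (k + 2) * (2 * P.A k) ≤ P.L (k + 1) := by
  have h := (P.hnext k).trans (rpow_le_self h1 (P.hL1 (k + 1)))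
  exact_mod_cast h

lemma Params.next' (k : ℕ) (h1 : lam ≤ 1) : 2 * P.A k < P.L (k + 1) := by
  have h := P.next k h1
  have := P.A_pos k
  nlinarith

lemma Params.L_strictMono (h1 : lam ≤ 1) : StrictMono P.L := by
  apply strictMono_nat_of_lt_succ
  intro k
  have := P.next' k h1
  have := P.L_le_A k h1
  omega

lemma Params.A_strictMono (h1 : lam ≤ 1) : StrictMono P.A := by
  apply strictMono_nat_of_lt_succ
  intro k
  have := P.next' k h1
  have := P.L_le_A (k + 1) h1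
  omega

lemma Params.sep (h1 : lam ≤ 1) {i k : ℕ} (h : i < k) : 2 * P.A i < P.L k :=
  lt_of_lt_of_le (P.next' i h1) ((P.L_strictMono h1).monotone h)

lemma Params.block_unique (h1 : lam ≤ 1) {i k m : ℕ} (hi : P.A i < m ∧ m ≤ 2 * P.A i)
    (hk : P.A k < m ∧ m ≤ 2 * P.A k) : i = k := by
  rcases lt_trichotomy i k with h | h | h
  · have := P.sep h1 h
    have := P.L_le_A k h1
    omega
  · exact h
  · have := P.sep h1 h
    have := P.L_le_A i h1
    omega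

open Classical in
/-- The partial product of the weights. -/
noncomputable def Params.V (m : ℕ) : ℝ :=
  if h : ∃ k, P.A k < m ∧ m ≤ 2 * P.A k then
    2 ^ (Nat.log 2 ((m - P.A h.choose) / P.L h.choose)) else 1

lemma Params.V_block (h1 : lam ≤ 1) {k m : ℕ} (hk : P.A k < m ∧ m ≤ 2 * P.A k) :
    P.V m = 2 ^ (Nat.log 2 ((m - P.A k) / P.L k)) := by
  have h : ∃ k, P.A k < m ∧ m ≤ 2 * P.A k := ⟨k, hk⟩
  have e : h.choose = k := P.block_unique h1 h.choose_spec hk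
  unfold Params.V
  rw [dif_pos h, e]

lemma Params.V_out {m : ℕ} (hm : ∀ k, ¬ (P.A k < m ∧ m ≤ 2 * P.A k)) : P.V m = 1 := by
  unfold Params.V
  rw [dif_neg]
  rintro ⟨k, hk⟩
  exact hm k hk

lemma Params.one_le_V (m : ℕ) : 1 ≤ P.V m := by
  unfold Params.V
  split_ifs with h
  · exact one_le_pow₀ (by norm_num)
  · exact le_rfl

lemma Params.V_pos (m : ℕ) : 0 < P.V m := lt_of_lt_of_le one_pos (P.one_le_V m)

lemma Params.V_step (h1 : lam ≤ 1) {m j : ℕ}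
    (hj : ∀ k, P.A k < m → m ≤ 2 * P.A k → j ≤ P.L k) : P.V m ≤ 2 * P.V (m - j) := by
  have hone := P.one_le_V (m - j)
  by_cases h : ∃ k, P.A k < m ∧ m ≤ 2 * P.A k
  · obtain ⟨k, hk⟩ := h
    have hjk := hj k hk.1 hk.2
    rw [P.V_block h1 hk]
    set q := (m - P.A k) / P.L k with hq
    rcases lt_or_ge q 2 with hq2 | hq2
    · rw [Nat.log_of_lt hq2]
      linarith [pow_zero (2 : ℝ)]
    · have hL := P.hL1 k
      have hqm : q * P.L k ≤ m - P.A k := Nat.div_mul_le_self _ _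
      have h2 : 2 * P.L k ≤ q * P.L k := Nat.mul_le_mul_right _ hq2
      have hk' : P.A k < m - j ∧ m - j ≤ 2 * P.A k := by omega
      rw [P.V_block h1 hk']
      have h3 : q - 1 ≤ (m - j - P.A k) / P.L k := by
        rw [Nat.le_div_iff_mul_le (by omega), Nat.sub_mul, one_mul]
        omega
      have h4 : Nat.log 2 q ≤ Nat.log 2 ((m - j - P.A k) / P.L k) + 1 := by
        calc Nat.log 2 q ≤ Nat.log 2 ((q - 1) * 2) := Nat.log_mono_right (by omega)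
          _ = Nat.log 2 (q - 1) + 1 := Nat.log_mul_base (by norm_num) (by omega)
          _ ≤ _ := Nat.add_le_add_right (Nat.log_mono_right h3) 1
      calc (2 : ℝ) ^ Nat.log 2 q ≤ 2 ^ (Nat.log 2 ((m - j - P.A k) / P.L k) + 1) :=
            pow_le_pow_right₀ (by norm_num) h4
        _ = 2 * 2 ^ (Nat.log 2 ((m - j - P.A k) / P.L k)) := by rw [pow_succ]; ring
  · rw [P.V_out (fun k hk => h ⟨k, hk⟩)]
    linarith

lemma Params.V_succ (h1 : lam ≤ 1) (n : ℕ) : P.V (n + 1) ≤ 2 * P.V n := by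
  have := P.V_step h1 (m := n + 1) (j := 1) (fun k _ _ => P.hL1 k)
  simpa using this

lemma Params.V_gap (h1 : lam ≤ 1) {k j : ℕ} (hj : 2 * P.A k < j) (hj' : j ≤ P.L (k + 1))
    (n : ℕ) : P.V (n + j) ≤ 2 * P.V n := by
  have := P.V_step h1 (m := n + j) (j := j) (fun i hi hi' => by
    have hki : k + 1 ≤ i := by
      by_contra hcon
      have hik : i ≤ k := by omega
      have := (P.A_strictMono h1).monotone hik
      omega
    exact hj'.trans ((P.L_strictMono h1).monotone hki))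
  simpa using this

/-- The positions of the special coordinates. -/
def Params.t (k : ℕ) : ℕ := 4 ^ k * P.L k

def Params.nk (k : ℕ) : ℕ := P.A k + P.t k

lemma Params.t_pos (k : ℕ) : 1 ≤ P.t k :=
  Nat.mul_pos (by positivity) (P.hL1 k)

lemma Params.L_le_t (k : ℕ) : P.L k ≤ P.t k :=
  Nat.le_mul_of_pos_left _ (by positivity)

lemma Params.t_bound (k : ℕ) : (k + 1) * P.t k ≤ 8 ^ (k + 1) * P.L k := by
  have h : (k + 1) * 4 ^ k ≤ 8 ^ (k + 1) := by
    have h1 : k + 1 ≤ 2 ^ (k + 1) := Nat.lt_two_pow_self.le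
    have h2 : 4 ^ k ≤ 4 ^ (k + 1) := Nat.pow_le_pow_right (by norm_num) (by omega)
    calc (k + 1) * 4 ^ k ≤ 2 ^ (k + 1) * 4 ^ (k + 1) := Nat.mul_le_mul h1 h2
      _ = 8 ^ (k + 1) := by rw [← Nat.mul_pow]
  unfold Params.t
  rw [← mul_assoc]
  exact Nat.mul_le_mul_right _ h

lemma Params.t_le_A (h1 : lam ≤ 1) (k : ℕ) : P.t k ≤ P.A k := by
  have h := (P.t_bound k).trans (P.mulL_le k h1)
  have : 1 * P.t k ≤ (k + 1) * P.t k := Nat.mul_le_mul_right _ (by omega)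
  omega

lemma Params.nk_strictMono (h1 : lam ≤ 1) : StrictMono P.nk := by
  apply strictMono_nat_of_lt_succ
  intro k
  unfold Params.nk
  have := P.next' k h1
  have := P.L_le_A (k + 1) h1
  have := P.t_le_A h1 k
  have := P.t_pos (k + 1)
  omega

lemma Params.V_nk (h1 : lam ≤ 1) (k : ℕ) : P.V (P.nk k) = 4 ^ k := by
  have hk : P.A k < P.nk k ∧ P.nk k ≤ 2 * P.A k := by
    have := P.t_le_A h1 k
    have := P.t_pos k
    unfold Params.nk
    omega
  rw [P.V_block h1 hk]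
  have e : (P.nk k - P.A k) / P.L k = 2 ^ (2 * k) := by
    have : P.nk k - P.A k = 2 ^ (2 * k) * P.L k := by
      unfold Params.nk Params.t
      rw [pow_mul]
      simp
    rw [this, Nat.mul_div_cancel _ (P.hL1 k)]
  rw [e, Nat.log_pow (by norm_num), pow_mul]
  norm_num

lemma Params.V_low (h1 : lam ≤ 1) {k n : ℕ} (hn : P.t k ≤ n) (hn' : n ≤ P.A k) :
    P.V n = 1 := by
  apply P.V_out
  rintro i ⟨hi, hi'⟩
  rcases lt_or_ge i k with h | h
  · have := P.sep h1 h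
    have := P.L_le_t k
    omega
  · have := (P.A_strictMono h1).monotone h
    omega

end ParamLemmas

/-! ## Abstract sequence spaces -/

/-- The properties of `ℓ^p` and `c₀` that are used below. -/
structure SeqModel (𝕜 X : Type*) [RCLike 𝕜] [NormedAddCommGroup X] [NormedSpace 𝕜 X] where
  c : X →ₗ[𝕜] (ℕ → 𝕜)
  inj : Function.Injective c
  coord : ∀ x n, ‖c x n‖ ≤ ‖x‖
  solid : ∀ x y, (∀ n, ‖c x n‖ ≤ ‖c y n‖) → ‖x‖ ≤ ‖y‖
  mem : ∀ (a : ℕ → 𝕜) (y : X), (∀ n, ‖a n‖ ≤ ‖c y n‖) → ∃ x, c x = a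
  shift : ∀ x, ∃ y, c y = (fun n => c x (n + 1)) ∧ ‖y‖ ≤ ‖x‖
  small : ∀ x, ∀ ε > 0, ∃ N, ∀ j ≥ N, ∀ y, (∀ n, ‖c y n‖ ≤ ‖c x (n + j)‖) → ‖y‖ ≤ ε
  dens : ∀ x, ∀ ε > 0, ∃ y, (∃ N, ∀ n ≥ N, c y n = 0) ∧ ‖x - y‖ < ε
  ell1 : ∀ a : ℕ → 𝕜, (Summable fun n => ‖a n‖) → ∃ x, c x = a

section Operator

variable {𝕜 X : Type*} [RCLike 𝕜] [NormedAddCommGroup X] [NormedSpace 𝕜 X]
  (M : SeqModel 𝕜 X) {lam : ℝ} (P : Params lam)

/-- The weights. -/
noncomputable def Params.w {lam : ℝ} (P : Params lam) (n : ℕ) : ℝ := P.V (n + 1) / P.V n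

lemma Params.w_pos {lam : ℝ} (P : Params lam) (n : ℕ) : 0 < P.w n :=
  div_pos (P.V_pos _) (P.V_pos _)

lemma Params.w_le {lam : ℝ} (P : Params lam) (h1 : lam ≤ 1) (n : ℕ) : P.w n ≤ 2 := by
  unfold Params.w
  rw [div_le_iff₀ (P.V_pos _)]
  exact P.V_succ h1 n

include M in
lemma exists_operator (h1 : lam ≤ 1) :
    ∃ T : X →L[𝕜] X, ∀ x n, M.c (T x) n = ((P.w n : ℝ) : 𝕜) * M.c x (n + 1) := by
  have hex : ∀ x : X, ∃ y : X, (∀ n, M.c y n = ((P.w n : ℝ) : 𝕜) * M.c x (n + 1)) ∧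
      ‖y‖ ≤ 2 * ‖x‖ := by
    intro x
    obtain ⟨s, hs, hsn⟩ := M.shift x
    have hb : ∀ n, ‖((P.w n : ℝ) : 𝕜) * M.c x (n + 1)‖ ≤ ‖M.c ((2 : 𝕜) • s) n‖ := by
      intro n
      rw [map_smul, Pi.smul_apply, hs, norm_smul, norm_mul, RCLike.norm_ofReal,
        abs_of_pos (P.w_pos n)]
      have : ‖(2 : 𝕜)‖ = 2 := by simp
      rw [this]
      exact mul_le_mul_of_nonneg_right (P.w_le h1 n) (norm_nonneg _)
    obtain ⟨y, hy⟩ := M.mem (fun n => ((P.w n : ℝ) : 𝕜) * M.c x (n + 1)) ((2 : 𝕜) • s) hb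
    refine ⟨y, fun n => by rw [hy], ?_⟩
    have h2 : ‖y‖ ≤ ‖(2 : 𝕜) • s‖ := M.solid _ _ (fun n => by rw [hy]; exact hb n)
    have h3 : ‖(2 : 𝕜) • s‖ = 2 * ‖s‖ := by rw [norm_smul]; simp
    linarith
  choose T hT hTn using hex
  refine ⟨LinearMap.mkContinuous
    { toFun := T
      map_add' := ?_
      map_smul' := ?_ } 2 (fun x => hTn x), fun x n => hT x n⟩
  · intro x y
    apply M.inj
    funext n
    rw [map_add, Pi.add_apply, hT, hT, hT, map_add, Pi.add_apply]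
    ring
  · intro r x
    apply M.inj
    funext n
    simp only [RingHom.id_apply]
    rw [map_smul, Pi.smul_apply, hT, hT, map_smul, Pi.smul_apply, smul_eq_mul, smul_eq_mul]
    ring

variable {M P} {T : X →L[𝕜] X}
  (hT : ∀ x n, M.c (T x) n = ((P.w n : ℝ) : 𝕜) * M.c x (n + 1))

include hT

lemma iterate_coord (j : ℕ) (x : X) (n : ℕ) :
    M.c (T^[j] x) n = ((P.V (n + j) / P.V n : ℝ) : 𝕜) * M.c x (n + j) := by
  induction j generalizing n with
  | zero =>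
    have : P.V n ≠ 0 := (P.V_pos n).ne'
    simp [this]
  | succ j ih =>
    rw [Function.iterate_succ_apply', hT, ih (n + 1)]
    have h0 : P.V n ≠ 0 := (P.V_pos n).ne'
    have h1 : P.V (n + 1) ≠ 0 := (P.V_pos (n + 1)).ne'
    have e : n + 1 + j = n + (j + 1) := by ring
    rw [e, ← mul_assoc, ← RCLike.ofReal_mul]
    congr 2
    unfold Params.w
    field_simp

omit hT in
lemma iterate_sub (j : ℕ) (x y : X) : T^[j] x - T^[j] y = T^[j] (x - y) := by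
  induction j with
  | zero => rfl
  | succ j ih =>
    rw [Function.iterate_succ_apply', Function.iterate_succ_apply',
      Function.iterate_succ_apply', ← ih, map_sub]

lemma small_times (h1 : lam ≤ 1) (z : X) {ε : ℝ} (hε : 0 < ε) :
    ∃ N, ∀ k j, N ≤ j → 2 * P.A k < j → j ≤ P.L (k + 1) → ‖T^[j] z‖ ≤ ε := by
  obtain ⟨N, hN⟩ := M.small ((2 : 𝕜) • z) ε hε
  refine ⟨N, fun k j hj hk hk' => hN j hj _ (fun n => ?_)⟩
  rw [iterate_coord hT, norm_mul, RCLike.norm_ofReal, map_smul, Pi.smul_apply, norm_smul]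
  have : ‖(2 : 𝕜)‖ = 2 := by simp
  rw [this]
  apply mul_le_mul_of_nonneg_right _ (norm_nonneg _)
  rw [abs_of_pos (div_pos (P.V_pos _) (P.V_pos _)), div_le_iff₀ (P.V_pos _)]
  exact P.V_gap h1 hk hk' n

lemma large_times (h1 : lam ≤ 1) (z : X) (k : ℕ) (hz : 1 ≤ 4 ^ k * ‖M.c z (P.nk k)‖) {j : ℕ}
    (hj : P.t k ≤ j) (hj' : j ≤ P.A k) : 1 ≤ ‖T^[j] z‖ := by
  have hn : P.t k ≤ P.nk k - j := by unfold Params.nk; omega
  have hn' : P.nk k - j ≤ P.A k := by unfold Params.nk; omega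
  have e : P.nk k - j + j = P.nk k := by unfold Params.nk; omega
  have := iterate_coord hT j z (P.nk k - j)
  rw [e, P.V_low h1 hn hn', P.V_nk h1] at this
  have h2 := M.coord (T^[j] z) (P.nk k - j)
  rw [this, norm_mul, RCLike.norm_ofReal] at h2
  have h3 : |(4 : ℝ) ^ k / 1| = 4 ^ k := by
    rw [div_one, abs_of_pos (by positivity)]
  rw [h3] at h2
  linarith

omit hT in
lemma rpow_floor_bound (h0 : 0 < lam) (B : ℕ) {j : ℕ}
    (hj : (j : ℝ) ≤ ((⌊(B : ℝ) ^ lam⌋₊ : ℕ) : ℝ) ^ (1 / lam)) : j ≤ B := by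
  have h1 : ((⌊(B : ℝ) ^ lam⌋₊ : ℕ) : ℝ) ^ (1 / lam) ≤ ((B : ℝ) ^ lam) ^ (1 / lam) :=
    Real.rpow_le_rpow (by positivity) (Nat.floor_le (by positivity)) (by positivity)
  rw [← Real.rpow_mul (by positivity), mul_one_div_cancel h0.ne', Real.rpow_one] at h1
  exact_mod_cast hj.trans h1

/-- Large times are sparse for every vector. -/
lemma dens_large (h0 : 0 < lam) (h1 : lam ≤ 1) (z : X) {ε : ℝ} (hε : 0 < ε) :
    lowerDensity (1 / lam) {j : ℕ | ε < ‖T^[j] z‖} = 0 := by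
  obtain ⟨N, hN⟩ := small_times hT h1 z hε
  have hφ : ∀ k : ℕ, (k + 1) * (2 * P.A k) ≤ ⌊(P.L (k + 1) : ℝ) ^ lam⌋₊ := by
    intro k
    apply Nat.le_floor
    have h := P.hnext k
    have hA : (0 : ℝ) ≤ (P.A k : ℝ) := by positivity
    push_cast
    nlinarith
  have hk : ∀ k : ℕ, k ≤ 2 * P.A k := by
    intro k
    have := (P.A_strictMono h1).le_apply (x := k)
    omega
  apply lowerDensity_eq_zero (fun k => ⌊(P.L (k + 1) : ℝ) ^ lam⌋₊)
  · apply tendsto_atTop_mono (f := fun k => k) _ tendsto_id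
    intro k
    have := hφ k
    have := hk k
    have h3 : 1 * (2 * P.A k) ≤ (k + 1) * (2 * P.A k) := Nat.mul_le_mul_right _ (by omega)
    omega
  · apply Eventually.frequently
    filter_upwards [eventually_ge_atTop N] with k hkN
    refine le_trans (Nat.mul_le_mul_left _ ?_) (hφ k)
    have hsub : ({j : ℕ | ε < ‖T^[j] z‖} ∩
        {j : ℕ | 1 ≤ j ∧ (j : ℝ) ≤ ((⌊(P.L (k + 1) : ℝ) ^ lam⌋₊ : ℕ) : ℝ) ^ (1 / lam)}) ⊆
        ((Finset.Icc 1 (2 * P.A k) : Finset ℕ) : Set ℕ) := by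
      rintro j ⟨hj1, hj2, hj3⟩
      have hjL := rpow_floor_bound h0 _ hj3
      rw [Finset.mem_coe, Finset.mem_Icc]
      refine ⟨hj2, ?_⟩
      by_contra hcon
      push Not at hcon
      have := hN k j (by have := hk k; omega) hcon hjL
      exact absurd hj1 (not_lt.mpr this)
    have := Set.ncard_le_ncard hsub (Finset.finite_toSet _)
    rwa [Set.ncard_coe_finset, Nat.card_Icc, Nat.add_sub_cancel] at this

/-- Small times are sparse for every vector with infinitely many large special coordinates. -/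
lemma dens_small (h0 : 0 < lam) (h1 : lam ≤ 1) (z : X)
    (hz : ∃ᶠ k in atTop, 1 ≤ 4 ^ k * ‖M.c z (P.nk k)‖) :
    lowerDensity (1 / lam) {j : ℕ | ‖T^[j] z‖ < 1} = 0 := by
  have hφ : ∀ k : ℕ, (k + 1) * P.t k ≤ ⌊(P.A k : ℝ) ^ lam⌋₊ := by
    intro k
    apply Nat.le_floor
    refine le_trans ?_ (P.hup k)
    exact_mod_cast P.t_bound k
  apply lowerDensity_eq_zero (fun k => ⌊(P.A k : ℝ) ^ lam⌋₊)
  · apply tendsto_atTop_mono (f := fun k => k) _ tendsto_id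
    intro k
    have := hφ k
    have h3 : (k + 1) * 1 ≤ (k + 1) * P.t k := Nat.mul_le_mul_left _ (P.t_pos k)
    omega
  · refine hz.mono (fun k hk => ?_)
    refine le_trans (Nat.mul_le_mul_left _ ?_) (hφ k)
    have hsub : ({j : ℕ | ‖T^[j] z‖ < 1} ∩
        {j : ℕ | 1 ≤ j ∧ (j : ℝ) ≤ ((⌊(P.A k : ℝ) ^ lam⌋₊ : ℕ) : ℝ) ^ (1 / lam)}) ⊆
        ((Finset.Icc 1 (P.t k) : Finset ℕ) : Set ℕ) := by
      rintro j ⟨hj1, hj2, hj3⟩
      have hjA := rpow_floor_bound h0 _ hj3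
      rw [Finset.mem_coe, Finset.mem_Icc]
      refine ⟨hj2, ?_⟩
      by_contra hcon
      push Not at hcon
      have := large_times hT h1 z k hk hcon.le hjA
      exact absurd hj1 (not_lt.mpr this)
    have := Set.ncard_le_ncard hsub (Finset.finite_toSet _)
    rwa [Set.ncard_coe_finset, Nat.card_Icc, Nat.add_sub_cancel] at this

omit hT in
lemma count_bound {q : ℝ} {G : Set ℕ} {a b n : ℕ} (hab : ∀ j, a < j → j ≤ b → j ∈ G)
    (hb : b ≤ ⌊(n : ℝ) ^ q⌋₊) :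
    b - a ≤ (G ∩ {j : ℕ | 1 ≤ j ∧ (j : ℝ) ≤ (n : ℝ) ^ q}).ncard := by
  have hfin : (G ∩ {j : ℕ | 1 ≤ j ∧ (j : ℝ) ≤ (n : ℝ) ^ q}).Finite := by
    apply (Finset.finite_toSet (Finset.Icc 1 ⌊(n : ℝ) ^ q⌋₊)).subset
    rintro j ⟨-, hj1, hj2⟩
    rw [Finset.mem_coe, Finset.mem_Icc]
    exact ⟨hj1, Nat.le_floor hj2⟩
  have hsub : ((Finset.Ioc a b : Finset ℕ) : Set ℕ) ⊆
      (G ∩ {j : ℕ | 1 ≤ j ∧ (j : ℝ) ≤ (n : ℝ) ^ q}) := by
    intro j hj
    rw [Finset.mem_coe, Finset.mem_Ioc] at hj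
    refine ⟨hab j hj.1 hj.2, by omega, ?_⟩
    exact (Nat.le_floor_iff (by positivity)).mp (hj.2.trans hb)
  have := Set.ncard_le_ncard hsub hfin
  rwa [Set.ncard_coe_finset, Nat.card_Ioc] at this

omit hT in
lemma exists_growth {δ : ℝ} (hδ : 0 < δ) :
    ∃ K : ℕ, ∀ k ≥ K, (5 : ℝ) * 8 ^ (k + 1) ≤ (P.A k : ℝ) ^ δ := by
  obtain ⟨K, hK⟩ := exists_nat_ge (6 / δ)
  refine ⟨K, fun k hk => ?_⟩
  have h1 : 6 / δ ≤ (k : ℝ) + 1 := by
    have : (K : ℝ) ≤ k := by exact_mod_cast hk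
    linarith
  rw [div_le_iff₀ hδ] at h1
  have h2 : (3 : ℝ) * (k + 2) ≤ ((k : ℝ) + 1) ^ 2 * δ := by nlinarith
  calc (5 : ℝ) * 8 ^ (k + 1) ≤ 8 * 8 ^ (k + 1) := by
        have : (0 : ℝ) < 8 ^ (k + 1) := by positivity
        linarith
    _ = (2 : ℝ) ^ ((3 : ℝ) * (k + 2)) := by
        rw [Real.rpow_mul (by norm_num)]
        have e1 : (2 : ℝ) ^ (3 : ℝ) = 8 := by
          rw [show (3 : ℝ) = ((3 : ℕ) : ℝ) by norm_num, Real.rpow_natCast]; norm_num
        have e2 : ((k : ℝ) + 2) = ((k + 2 : ℕ) : ℝ) := by push_cast; ring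
        rw [e1, e2, Real.rpow_natCast]
        ring
    _ ≤ (2 : ℝ) ^ (((k : ℝ) + 1) ^ 2 * δ) :=
        Real.rpow_le_rpow_of_exponent_le (by norm_num) h2
    _ = ((2 : ℝ) ^ ((k + 1) ^ 2)) ^ δ := by
        have e : (((k : ℝ) + 1) ^ 2) = (((k + 1) ^ 2 : ℕ) : ℝ) := by push_cast; ring
        rw [Real.rpow_mul (by norm_num), e, Real.rpow_natCast]
    _ ≤ (P.A k : ℝ) ^ δ := Real.rpow_le_rpow (by positivity) (P.hbig k) hδ.le

/-- For exponents below `lam`, the small times have positive lower density for every vector. -/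
lemma dens_pos (h1 : lam ≤ 1) {lam' : ℝ} (h0' : 0 < lam') (hlt : lam' < lam)
    (z : X) {σ : ℝ} (hσ : 0 < σ) :
    0 < lowerDensity (1 / lam') {j : ℕ | ‖T^[j] z‖ < σ} := by
  obtain ⟨Nz, hNz⟩ := small_times hT h1 z (half_pos hσ)
  obtain ⟨K, hK⟩ := exists_growth (P := P) (sub_pos.mpr hlt)
  apply lowerDensity_pos
  -- the threshold
  set K0 := max (max K 1) (2 * Nz) with hK0
  have tN : Tendsto (fun n : ℕ => ⌊(n : ℝ) ^ (1 / lam')⌋₊) atTop atTop :=
    tendsto_nat_floor_atTop.comp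
      ((tendsto_rpow_atTop (by positivity)).comp tendsto_natCast_atTop_atTop)
  filter_upwards [tN.eventually_ge_atTop (P.L K0)] with n hn
  set N := ⌊(n : ℝ) ^ (1 / lam')⌋₊ with hN
  -- choose `k`
  have hex : ∃ k, N < P.L k := by
    refine ⟨N + 1, ?_⟩
    have := (P.L_strictMono h1).le_apply (x := N + 1)
    omega
  have hk1 : Nat.find hex ≠ 0 := by
    intro h0
    have h2 := Nat.find_spec hex
    rw [h0] at h2
    have := (P.L_strictMono h1).monotone (Nat.zero_le K0)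
    omega
  obtain ⟨k, hk⟩ := Nat.exists_eq_succ_of_ne_zero hk1
  have hNk : N < P.L (k + 1) := by
    have := Nat.find_spec hex
    rwa [hk] at this
  have hkN : P.L k ≤ N := by
    have := Nat.find_min hex (m := k) (by omega)
    omega
  have hkK0 : K0 ≤ k := by
    by_contra hcon
    have : k + 1 ≤ K0 := by omega
    have := (P.L_strictMono h1).monotone this
    omega
  have hkK : K ≤ k := le_trans (le_trans (le_max_left _ _) (le_max_left _ _)) hkK0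
  have hk1' : 1 ≤ k := le_trans (le_trans (le_max_right _ _) (le_max_left _ _)) hkK0
  have hkNz : 2 * Nz ≤ k := le_trans (le_max_right _ _) hkK0
  have hkL : k ≤ P.L k := (P.L_strictMono h1).le_apply
  have hLA := P.L_le_A k h1
  -- bound on `n`
  have hnN : (n : ℝ) ≤ ((N : ℝ) + 1) ^ lam' := by
    have h2 : (n : ℝ) ^ (1 / lam') ≤ (N : ℝ) + 1 := (Nat.lt_floor_add_one _).le
    have h3 : ((n : ℝ) ^ (1 / lam')) ^ lam' ≤ ((N : ℝ) + 1) ^ lam' :=
      Real.rpow_le_rpow (by positivity) h2 h0'.le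
    rwa [← Real.rpow_mul (by positivity), one_div_mul_cancel h0'.ne', Real.rpow_one] at h3
  rcases le_or_gt N (4 * P.A k) with hcase | hcase
  · -- first case
    obtain ⟨i, rfl⟩ : ∃ i, k = i + 1 := ⟨k - 1, by omega⟩
    have hnext := P.next i h1
    have hcount := count_bound (q := 1 / lam') (G := {j : ℕ | ‖T^[j] z‖ < σ})
      (a := max (2 * P.A i) Nz) (b := P.L (i + 1)) (n := n) (fun j hj hj' => by
        have h2 : 2 * P.A i < j := lt_of_le_of_lt (le_max_left _ _) hj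
        have h3 : Nz ≤ j := (lt_of_le_of_lt (le_max_right _ _) hj).le
        have h4 := hNz i j h3 h2 hj'
        show ‖T^[j] z‖ < σ
        linarith) hkN
    have hmax : 2 * max (2 * P.A i) Nz ≤ P.L (i + 1) := by
      rcases max_cases (2 * P.A i) Nz with ⟨h, -⟩ | ⟨h, -⟩
      · rw [h]
        have : 2 * (2 * P.A i) ≤ (i + 2) * (2 * P.A i) := Nat.mul_le_mul_right _ (by omega)
        omega
      · rw [h]; omega
    have hn2 : (n : ℝ) ≤ 2 * (P.L (i + 1) : ℝ) := by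
      have hA1 : (1 : ℝ) ≤ (P.A (i + 1) : ℝ) := by exact_mod_cast P.A_pos (i + 1)
      have hApos : (0 : ℝ) < (P.A (i + 1) : ℝ) := by linarith
      have h5 : ((N : ℝ) + 1) ^ lam' ≤ (5 * (P.A (i + 1) : ℝ)) ^ lam' := by
        apply Real.rpow_le_rpow (by positivity) _ h0'.le
        have : (N : ℝ) ≤ 4 * (P.A (i + 1) : ℝ) := by exact_mod_cast hcase
        linarith
      have h6 : (5 * (P.A (i + 1) : ℝ)) ^ lam' ≤ 5 * (P.A (i + 1) : ℝ) ^ lam' := by
        rw [Real.mul_rpow (by norm_num) (by positivity)]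
        apply mul_le_mul_of_nonneg_right _ (by positivity)
        calc (5 : ℝ) ^ lam' ≤ 5 ^ (1 : ℝ) :=
              Real.rpow_le_rpow_of_exponent_le (by norm_num) (by linarith)
          _ = 5 := Real.rpow_one _
      have h7 := hK (i + 1) hkK
      have h8 := P.hlow (i + 1)
      have h9 : (P.A (i + 1) : ℝ) ^ lam
          = (P.A (i + 1) : ℝ) ^ lam' * (P.A (i + 1) : ℝ) ^ (lam - lam') := by
        rw [← Real.rpow_add hApos]; congr 1; ring
      have h10 : (0 : ℝ) < (P.A (i + 1) : ℝ) ^ lam' := by positivity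
      have h11 : (0 : ℝ) < 8 ^ (i + 1 + 1) := by positivity
      have h12 : (5 * (P.A (i + 1) : ℝ) ^ lam') * 8 ^ (i + 1 + 1)
          ≤ (2 * (P.L (i + 1) : ℝ)) * 8 ^ (i + 1 + 1) := by
        calc (5 * (P.A (i + 1) : ℝ) ^ lam') * 8 ^ (i + 1 + 1)
            = (P.A (i + 1) : ℝ) ^ lam' * (5 * 8 ^ (i + 1 + 1)) := by ring
          _ ≤ (P.A (i + 1) : ℝ) ^ lam' * (P.A (i + 1) : ℝ) ^ (lam - lam') :=
              mul_le_mul_of_nonneg_left h7 h10.le
          _ = (P.A (i + 1) : ℝ) ^ lam := h9.symm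
          _ ≤ 2 * 8 ^ (i + 1 + 1) * (P.L (i + 1) : ℝ) := h8
          _ = _ := by ring
      have h13 := le_of_mul_le_mul_right h12 h11
      linarith
    have hn3 : n ≤ 2 * P.L (i + 1) := by exact_mod_cast hn2
    omega
  · -- second case
    have hcount := count_bound (q := 1 / lam') (G := {j : ℕ | ‖T^[j] z‖ < σ})
      (a := max (2 * P.A k) Nz) (b := N) (n := n) (fun j hj hj' => by
        have h2 : 2 * P.A k < j := lt_of_le_of_lt (le_max_left _ _) hj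
        have h3 : Nz ≤ j := (lt_of_le_of_lt (le_max_right _ _) hj).le
        have h4 := hNz k j h3 h2 (by omega)
        show ‖T^[j] z‖ < σ
        linarith) le_rfl
    have hmax : 2 * max (2 * P.A k) Nz ≤ N := by
      rcases max_cases (2 * P.A k) Nz with ⟨h, -⟩ | ⟨h, -⟩ <;> rw [h] <;> omega
    have hn2 : (n : ℝ) ≤ (N : ℝ) + 1 := by
      refine hnN.trans ?_
      have h1N : (1 : ℝ) ≤ (N : ℝ) + 1 := by
        have : (0 : ℝ) ≤ N := by positivity
        linarith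
      calc ((N : ℝ) + 1) ^ lam' ≤ ((N : ℝ) + 1) ^ (1 : ℝ) :=
            Real.rpow_le_rpow_of_exponent_le h1N (by linarith)
        _ = (N : ℝ) + 1 := Real.rpow_one _
    have hn3 : n ≤ N + 1 := by exact_mod_cast hn2
    omega

end Operator

/-! ## The scrambled set -/

section Scrambled

variable {𝕜 X : Type*} [RCLike 𝕜] [NormedAddCommGroup X] [NormedSpace 𝕜 X]
  {M : SeqModel 𝕜 X} {lam : ℝ} {P : Params lam}

/-- The infinite part of the scrambled vectors. -/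
noncomputable def spikes (𝕜 : Type*) [RCLike 𝕜] {lam : ℝ} (P : Params lam) (m : ℕ)
    (f : ℕ → Bool) : ℕ → 𝕜 :=
  Function.extend P.nk
    (fun k => if m ≤ k ∧ f (Nat.unpair k).1 = true then (1 / 4 : 𝕜) ^ k else 0) 0

lemma spikes_nk (h1 : lam ≤ 1) (m : ℕ) (f : ℕ → Bool) (k : ℕ) :
    spikes 𝕜 P m f (P.nk k) =
      if m ≤ k ∧ f (Nat.unpair k).1 = true then (1 / 4 : 𝕜) ^ k else 0 :=
  (P.nk_strictMono h1).injective.extend_apply _ _ _

lemma spikes_out (m : ℕ) (f : ℕ → Bool) {n : ℕ} (hn : n ∉ Set.range P.nk) :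
    spikes 𝕜 P m f n = 0 := by
  unfold spikes
  rw [Function.extend_apply']
  · rfl
  · rintro ⟨a, ha⟩
    exact hn ⟨a, ha⟩

lemma spikes_bound (h1 : lam ≤ 1) (m : ℕ) (f : ℕ → Bool) (k : ℕ) :
    ‖spikes 𝕜 P m f (P.nk k)‖ ≤ (1 / 2 : ℝ) ^ m * (1 / 2 : ℝ) ^ k := by
  rw [spikes_nk h1]
  split_ifs with h
  · rw [norm_pow]
    have e : ‖(1 / 4 : 𝕜)‖ = (1 / 2) * (1 / 2) := by
      rw [norm_div]; norm_num
    rw [e, mul_pow]
    apply mul_le_mul_of_nonneg_right _ (by positivity)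
    exact pow_le_pow_of_le_one (by norm_num) (by norm_num) h.1
  · rw [norm_zero]; positivity

/-- A fixed dominating vector. -/
lemma exists_dom (M : SeqModel 𝕜 X) (P : Params lam) (h1 : lam ≤ 1) :
    ∃ u : X, ∀ k, M.c u (P.nk k) = (1 / 2 : 𝕜) ^ k := by
  have hinj := (P.nk_strictMono h1).injective
  let a : ℕ → 𝕜 := Function.extend P.nk (fun k => (1 / 2 : 𝕜) ^ k) 0
  have ha : ∀ k, a (P.nk k) = (1 / 2 : 𝕜) ^ k := fun k => hinj.extend_apply _ _ _
  have hsup : ∀ x ∉ Set.range P.nk, ‖a x‖ = 0 := by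
    intro x hx
    have : a x = 0 := by
      show Function.extend P.nk (fun k => (1 / 2 : 𝕜) ^ k) 0 x = 0
      rw [Function.extend_apply']
      · rfl
      · rintro ⟨b, hb⟩
        exact hx ⟨b, hb⟩
    rw [this, norm_zero]
  have hg : Summable (fun k : ℕ => (1 / 2 : ℝ) ^ k) :=
    summable_geometric_of_lt_one (by norm_num) (by norm_num)
  have hs' : Summable ((fun n => ‖a n‖) ∘ P.nk) := by
    refine hg.congr (fun k => ?_)
    rw [Function.comp_apply, ha, norm_pow, norm_div]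
    norm_num
  have hs : Summable (fun n => ‖a n‖) := (hinj.summable_iff hsup).mp hs'
  obtain ⟨x, hx⟩ := M.ell1 _ hs
  exact ⟨x, fun k => by rw [hx, ha]⟩

lemma spikes_vec (M : SeqModel 𝕜 X) (P : Params lam) (h1 : lam ≤ 1) :
    ∃ C : ℝ, 0 < C ∧ ∀ (m : ℕ) (f : ℕ → Bool),
      ∃ x : X, M.c x = spikes 𝕜 P m f ∧ ‖x‖ ≤ C * (1 / 2 : ℝ) ^ m := by
  obtain ⟨u, hu⟩ := exists_dom M P h1
  refine ⟨‖u‖ + 1, by positivity, fun m f => ?_⟩
  have hb : ∀ n, ‖spikes 𝕜 P m f n‖ ≤ ‖M.c (((1 / 2 : 𝕜) ^ m) • u) n‖ := by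
    intro n
    by_cases hn : n ∈ Set.range P.nk
    · obtain ⟨k, rfl⟩ := hn
      refine (spikes_bound h1 m f k).trans ?_
      rw [map_smul, Pi.smul_apply, hu, norm_smul, norm_pow, norm_pow, norm_div]
      norm_num
    · rw [spikes_out m f hn, norm_zero]
      positivity
  obtain ⟨x, hx⟩ := M.mem _ _ hb
  refine ⟨x, hx, ?_⟩
  have h2 := M.solid x (((1 / 2 : 𝕜) ^ m) • u) (fun n => by rw [hx]; exact hb n)
  have h3 : ‖((1 / 2 : 𝕜) ^ m) • u‖ = (1 / 2 : ℝ) ^ m * ‖u‖ := by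
    rw [norm_smul, norm_pow, norm_div]; norm_num
  rw [h3] at h2
  have h4 : (0 : ℝ) < (1 / 2) ^ m := by positivity
  nlinarith

lemma exists_code (M : SeqModel 𝕜 X) : ∃ g : X × ℕ → (ℕ → Bool), Function.Injective g := by
  have hc : Cardinal.mk ((ℕ → ℝ × ℝ) × ℕ) ≤ Cardinal.mk (ℕ → Bool) := by
    simp [Cardinal.mk_real]
  obtain ⟨e⟩ := Cardinal.le_def _ _ |>.mp hc
  refine ⟨fun q => e (fun n => (RCLike.re (M.c q.1 n), RCLike.im (M.c q.1 n)), q.2), ?_⟩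
  rintro ⟨x, m⟩ ⟨y, m'⟩ h
  have h2 := e.injective h
  rw [Prod.mk.injEq] at h2
  obtain ⟨h3, h4⟩ := h2
  simp only at h3 h4
  have h5 : x = y := by
    apply M.inj
    funext n
    have h6 := congrFun h3 n
    rw [Prod.mk.injEq] at h6
    exact RCLike.ext h6.1 h6.2
  rw [h5, h4]

/-- The scrambled set. -/
def scrSet (M : SeqModel 𝕜 X) (P : Params lam) (g : X × ℕ → (ℕ → Bool)) : Set X :=
  {s | ∃ (d : X) (m : ℕ), (∃ N, ∀ n ≥ N, M.c d n = 0) ∧
    M.c s = M.c d + spikes 𝕜 P m (g (d, m))}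

lemma scr_freq (h1 : lam ≤ 1) {g : X × ℕ → (ℕ → Bool)} (hg : Function.Injective g)
    {x y : X} {d d' : X} {m m' : ℕ} (hd : ∃ N, ∀ n ≥ N, M.c d n = 0)
    (hd' : ∃ N, ∀ n ≥ N, M.c d' n = 0) (hx : M.c x = M.c d + spikes 𝕜 P m (g (d, m)))
    (hy : M.c y = M.c d' + spikes 𝕜 P m' (g (d', m'))) (hne : (d, m) ≠ (d', m')) :
    ∃ᶠ k in atTop, 1 ≤ 4 ^ k * ‖M.c (x - y) (P.nk k)‖ := by
  obtain ⟨N, hN⟩ := hd
  obtain ⟨N', hN'⟩ := hd'
  have hgne : g (d, m) ≠ g (d', m') := fun h => hne (hg h)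
  obtain ⟨i, hi⟩ := Function.ne_iff.mp hgne
  rw [Filter.frequently_atTop]
  intro K
  set b := max (max K (max m m')) (max N N') with hb
  have hbk : b ≤ Nat.pair i b := Nat.right_le_pair i b
  have hkn : Nat.pair i b ≤ P.nk (Nat.pair i b) := (P.nk_strictMono h1).le_apply
  have hK : K ≤ b := le_trans (le_max_left _ _) (le_max_left _ _)
  have hm : m ≤ b := le_trans (le_trans (le_max_left _ _) (le_max_right _ _)) (le_max_left _ _)
  have hm' : m' ≤ b :=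
    le_trans (le_trans (le_max_right _ _) (le_max_right _ _)) (le_max_left _ _)
  have hNb : N ≤ b := le_trans (le_max_left _ _) (le_max_right _ _)
  have hNb' : N' ≤ b := le_trans (le_max_right _ _) (le_max_right _ _)
  refine ⟨Nat.pair i b, by omega, ?_⟩
  have e : M.c (x - y) (P.nk (Nat.pair i b)) =
      spikes 𝕜 P m (g (d, m)) (P.nk (Nat.pair i b)) -
      spikes 𝕜 P m' (g (d', m')) (P.nk (Nat.pair i b)) := by
    rw [map_sub, Pi.sub_apply, hx, hy, Pi.add_apply, Pi.add_apply, hN _ (by omega),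
      hN' _ (by omega), zero_add, zero_add]
  have n4 : ‖(1 / 4 : 𝕜) ^ (Nat.pair i b)‖ = (1 / 4 : ℝ) ^ (Nat.pair i b) := by
    rw [norm_pow, norm_div]; norm_num
  have one : (4 : ℝ) ^ (Nat.pair i b) * (1 / 4 : ℝ) ^ (Nat.pair i b) = 1 := by
    rw [← mul_pow]; norm_num
  rw [e, spikes_nk h1, spikes_nk h1, Nat.unpair_pair]
  have hmk : m ≤ Nat.pair i b := by omega
  have hmk' : m' ≤ Nat.pair i b := by omega
  simp only [hmk, hmk', true_and]
  rcases h2 : g (d, m) i with _ | _ <;> rcases h3 : g (d', m') i with _ | _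
  · exact absurd (h2.trans h3.symm) hi
  · simp only [Bool.false_eq_true, if_false, if_true, zero_sub, norm_neg]
    rw [n4, one]
  · simp only [Bool.false_eq_true, if_false, if_true, sub_zero]
    rw [n4, one]
  · exact absurd (h2.trans h3.symm) hi

lemma scr_dense (h1 : lam ≤ 1) (g : X × ℕ → (ℕ → Bool)) : Dense (scrSet M P g) := by
  rw [Metric.dense_iff]
  intro x r hr
  obtain ⟨d, hd, hxd⟩ := M.dens x (r / 2) (half_pos hr)
  obtain ⟨C, hC, hspk⟩ := spikes_vec M P h1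
  obtain ⟨m, hm⟩ : ∃ m : ℕ, C * (1 / 2 : ℝ) ^ m < r / 2 := by
    obtain ⟨m, hm⟩ := exists_pow_lt_of_lt_one (x := r / 2 / C) (y := (1 / 2 : ℝ))
      (by positivity) (by norm_num)
    refine ⟨m, ?_⟩
    rw [lt_div_iff₀ hC] at hm
    linarith
  obtain ⟨u, hu, hun⟩ := hspk m (g (d, m))
  refine ⟨d + u, ?_, d, m, hd, by rw [map_add, hu]⟩
  rw [Metric.mem_ball, dist_eq_norm]
  calc ‖d + u - x‖ = ‖u - (x - d)‖ := by congr 1; abel
    _ ≤ ‖u‖ + ‖x - d‖ := norm_sub_le _ _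
    _ < r := by linarith

lemma scr_uncountable (h1 : lam ≤ 1) {g : X × ℕ → (ℕ → Bool)} (hg : Function.Injective g) :
    ¬ (scrSet M P g).Countable := by
  intro hcount
  have hvec : ∀ r : ℝ, ∃ d : X, M.c d = Pi.single 0 (r : 𝕜) := by
    intro r
    have hsum : Summable (fun n => ‖(Pi.single 0 (r : 𝕜) : ℕ → 𝕜) n‖) := by
      apply summable_of_ne_finset_zero (s := {0})
      intro n hn
      have : n ≠ 0 := by simpa using hn
      rw [Pi.single_eq_of_ne this, norm_zero]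
    exact M.ell1 _ hsum
  choose d hd using hvec
  have hfin : ∀ r, ∃ N, ∀ n ≥ N, M.c (d r) n = 0 := by
    intro r
    refine ⟨1, fun n hn => ?_⟩
    rw [hd, Pi.single_eq_of_ne (by omega)]
  have hs : ∀ r : ℝ, ∃ s : X, M.c s = M.c (d r) + spikes 𝕜 P 0 (g (d r, 0)) := by
    intro r
    obtain ⟨C, hC, hspk⟩ := spikes_vec M P h1
    obtain ⟨u, hu, -⟩ := hspk 0 (g (d r, 0))
    exact ⟨d r + u, by rw [map_add, hu]⟩
  choose s hs using hs
  have hsinj : Function.Injective s := by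
    intro r r' h
    by_contra hne
    have hdne : (d r, 0) ≠ (d r', 0) := by
      intro h2
      rw [Prod.mk.injEq] at h2
      have h3 : M.c (d r) 0 = M.c (d r') 0 := by rw [h2.1]
      rw [hd, hd, Pi.single_eq_same, Pi.single_eq_same] at h3
      exact hne (RCLike.ofReal_injective h3)
    have := scr_freq h1 hg (hfin r) (hfin r') (hs r) (hs r') hdne
    obtain ⟨k, hk⟩ := this.exists
    rw [h, sub_self, map_zero, Pi.zero_apply, norm_zero, mul_zero] at hk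
    linarith
  have hmem : ∀ r, s r ∈ scrSet M P g := fun r => ⟨d r, 0, hfin r, hs r⟩
  have hpre : (s ⁻¹' (scrSet M P g)).Countable := hcount.preimage hsinj
  have huniv : s ⁻¹' (scrSet M P g) = Set.univ := Set.eq_univ_of_forall hmem
  rw [huniv] at hpre
  exact not_countable (Set.countable_univ_iff.mp hpre)

/-- The main theorem for an abstract sequence space. -/
theorem main_model (M : SeqModel 𝕜 X) (h0 : 0 < lam) (h1 : lam ≤ 1) :
    ∃ (w : ℕ → ℝ) (T : X →L[𝕜] X), (∀ n, 0 < w n) ∧ (∀ n, w n ≤ 2) ∧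
      (∀ x n, M.c (T x) n = ((w n : ℝ) : 𝕜) * M.c x (n + 1)) ∧
      DenselyDistChaotic lam T ∧
      ∀ lam' : ℝ, 0 < lam' → lam' < lam → ¬ DistChaotic lam' T := by
  obtain ⟨P⟩ := exists_params h0
  obtain ⟨T, hT⟩ := exists_operator M P h1
  obtain ⟨g, hg⟩ := exists_code M
  refine ⟨P.w, T, P.w_pos, P.w_le h1, hT, ?_, ?_⟩
  · refine ⟨scrSet M P g, scr_dense h1 g, scr_uncountable h1 hg, 1, one_pos, ?_⟩
    rintro x ⟨d, m, hd, hx⟩ y ⟨d', m', hd', hy⟩ hxy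
    have hne : (d, m) ≠ (d', m') := by
      intro h
      rw [Prod.mk.injEq] at h
      obtain ⟨rfl, rfl⟩ := h
      exact hxy (M.inj (hx.trans hy.symm))
    have hfreq := scr_freq h1 hg hd hd' hx hy hne
    have e : ∀ j, dist (T^[j] x) (T^[j] y) = ‖T^[j] (x - y)‖ := by
      intro j
      rw [dist_eq_norm, iterate_sub]
    simp only [e]
    exact ⟨dens_small hT h0 h1 _ hfreq, fun ε hε => dens_large hT h0 h1 _ hε⟩
  · rintro lam' h0' hlt ⟨S, hS, σ, hσ, hscr⟩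
    have : ∃ x ∈ S, ∃ y ∈ S, x ≠ y := by
      by_contra hcon
      push Not at hcon
      apply hS
      have : S.Subsingleton := fun x hx y hy => hcon x hx y hy
      exact this.countable
    obtain ⟨x, hx, y, hy, hxy⟩ := this
    have h2 := (hscr x hx y hy hxy).1
    have e : ∀ j, dist (T^[j] x) (T^[j] y) = ‖T^[j] (x - y)‖ := by
      intro j
      rw [dist_eq_norm, iterate_sub]
    simp only [e] at h2
    have h3 := dens_pos hT h1 h0' hlt (x - y) hσ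
    exact absurd h2 h3.ne'

end Scrambled

/-! ## The two models -/

section Models

variable {𝕜 : Type*} [RCLike 𝕜]

lemma memlp_shift {p : ℝ≥0∞} (hp : 0 < p.toReal) (x : lp (fun _ : ℕ => 𝕜) p) (j : ℕ) :
    Memℓp (fun n : ℕ => x (n + j)) p := by
  apply memℓp_gen
  have h := (lp.memℓp x).summable hp
  exact (summable_nat_add_iff j).mpr h

/-- The coordinate map of `ℓ^p`. -/
noncomputable def lpC (𝕜 : Type*) [RCLike 𝕜] (p : ℝ≥0∞) :
    lp (fun _ : ℕ => 𝕜) p →ₗ[𝕜] (ℕ → 𝕜) where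
  toFun := fun x n => x n
  map_add' := fun x y => by
    funext n
    rfl
  map_smul' := fun r x => by
    funext n
    rfl

lemma lpC_apply {p : ℝ≥0∞} (x : lp (fun _ : ℕ => 𝕜) p) (n : ℕ) : lpC 𝕜 p x n = x n := rfl

section LpLemmas

variable {p : ℝ≥0∞} [hp1 : Fact (1 ≤ p)]

omit hp1 in
lemma lp_shift (hpr : 0 < p.toReal) (x : lp (fun _ : ℕ => 𝕜) p) :
    ∃ y : lp (fun _ : ℕ => 𝕜) p, lpC 𝕜 p y = (fun n => lpC 𝕜 p x (n + 1)) ∧ ‖y‖ ≤ ‖x‖ := by
  refine ⟨⟨fun n => x (n + 1), memlp_shift hpr x 1⟩, rfl, ?_⟩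
  rw [lp.norm_eq_tsum_rpow hpr, lp.norm_eq_tsum_rpow hpr]
  apply Real.rpow_le_rpow _ _ (by positivity)
  · exact tsum_nonneg (fun n => by positivity)
  · have hs := (lp.memℓp x).summable hpr
    have := hs.tsum_eq_zero_add
    rw [this]
    have h0 : 0 ≤ ‖x 0‖ ^ p.toReal := by positivity
    simpa using h0

lemma lp_small (hp0 : p ≠ 0) (hpr : 0 < p.toReal) (x : lp (fun _ : ℕ => 𝕜) p) (ε : ℝ)
    (hε : ε > 0) : ∃ N, ∀ j ≥ N, ∀ y : lp (fun _ : ℕ => 𝕜) p,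
      (∀ n, ‖lpC 𝕜 p y n‖ ≤ ‖lpC 𝕜 p x (n + j)‖) → ‖y‖ ≤ ε := by
  have ht := tendsto_sum_nat_add (fun n => ‖x n‖ ^ p.toReal)
  have hε' : 0 < ε ^ p.toReal := by positivity
  obtain ⟨N, hN⟩ := (ht.eventually (gt_mem_nhds hε')).exists_forall_of_atTop
  refine ⟨N, fun j hj y hy => ?_⟩
  have h1 : ‖y‖ ≤ ‖(⟨fun n => x (n + j), memlp_shift hpr x j⟩ : lp (fun _ : ℕ => 𝕜) p)‖ :=
    lp.norm_mono hp0 hy
  have h2 : ‖(⟨fun n => x (n + j), memlp_shift hpr x j⟩ : lp (fun _ : ℕ => 𝕜) p)‖ ^ p.toReal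
      < ε ^ p.toReal := by
    rw [lp.norm_rpow_eq_tsum hpr]
    exact hN j hj
  have h3 := (Real.rpow_lt_rpow_iff (norm_nonneg _) hε.le hpr).mp h2
  exact h1.trans h3.le

lemma lp_dens (hp : p ≠ ∞) (x : lp (fun _ : ℕ => 𝕜) p) (ε : ℝ) (hε : ε > 0) :
    ∃ y : lp (fun _ : ℕ => 𝕜) p, (∃ N, ∀ n ≥ N, lpC 𝕜 p y n = 0) ∧ ‖x - y‖ < ε := by
  have hs := (lp.hasSum_single hp x).tendsto_sum_nat
  obtain ⟨N, hN⟩ := ((Metric.tendsto_nhds.mp hs) ε hε).exists
  refine ⟨∑ i ∈ Finset.range N, lp.single p i (x i), ⟨N, fun n hn => ?_⟩, ?_⟩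
  · rw [map_sum, Finset.sum_apply]
    apply Finset.sum_eq_zero
    intro i hi
    have := Finset.mem_range.mp hi
    rw [lpC_apply, lp.single_apply_ne]
    omega
  · rw [← dist_eq_norm, dist_comm]
    exact hN

lemma lp_ell1 (a : ℕ → 𝕜) (ha : Summable fun n => ‖a n‖) :
    ∃ x : lp (fun _ : ℕ => 𝕜) p, lpC 𝕜 p x = a := by
  have h1 : Memℓp a 1 := by
    apply memℓp_gen
    simpa using ha
  exact ⟨⟨a, h1.of_exponent_ge hp1.out⟩, rfl⟩

end LpLemmas

noncomputable def lpModel (𝕜 : Type*) [RCLike 𝕜] (p : ℝ≥0∞) [hp1 : Fact (1 ≤ p)]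
    (hp : p ≠ ∞) : SeqModel 𝕜 (lp (fun _ : ℕ => 𝕜) p) :=
  have hp0 : p ≠ 0 := (lt_of_lt_of_le one_pos hp1.out).ne'
  have hpr : 0 < p.toReal := ENNReal.toReal_pos hp0 hp
  { c := lpC 𝕜 p
    inj := fun _ _ h => lp.ext h
    coord := fun x n => lp.norm_apply_le_norm hp0 x n
    solid := fun _ _ h => lp.norm_mono hp0 h
    mem := fun a y h => ⟨⟨a, (lp.memℓp y).mono' h⟩, rfl⟩
    shift := lp_shift hpr
    small := lp_small hp0 hpr
    dens := lp_dens hp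
    ell1 := lp_ell1 }

/-- The coordinate map of `c₀`. -/
noncomputable def czC (𝕜 : Type*) [RCLike 𝕜] : C₀(ℕ, 𝕜) →ₗ[𝕜] (ℕ → 𝕜) where
  toFun := fun x n => x n
  map_add' := fun x y => by
    funext n
    rfl
  map_smul' := fun r x => by
    funext n
    rfl

lemma czC_apply (x : C₀(ℕ, 𝕜)) (n : ℕ) : czC 𝕜 x n = x n := rfl

/-- A null sequence as an element of `c₀`. -/
noncomputable def mkC0 (a : ℕ → 𝕜) (h : Tendsto a atTop (𝓝 0)) : C₀(ℕ, 𝕜) where
  toFun := a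
  continuous_toFun := continuous_of_discreteTopology
  zero_at_infty' := by
    rw [Filter.cocompact_eq_cofinite, Nat.cofinite_eq_atTop]
    exact h

lemma cz_tendsto (x : C₀(ℕ, 𝕜)) : Tendsto (fun n => x n) atTop (𝓝 0) := by
  have h := x.zero_at_infty'
  rw [Filter.cocompact_eq_cofinite, Nat.cofinite_eq_atTop] at h
  exact h

lemma cz_norm_le (x : C₀(ℕ, 𝕜)) {C : ℝ} (hC : 0 ≤ C) (h : ∀ n, ‖x n‖ ≤ C) : ‖x‖ ≤ C := by
  rw [← ZeroAtInftyContinuousMap.norm_toBCF_eq_norm, BoundedContinuousFunction.norm_le hC]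
  exact h

lemma cz_coord (x : C₀(ℕ, 𝕜)) (n : ℕ) : ‖x n‖ ≤ ‖x‖ := by
  rw [← ZeroAtInftyContinuousMap.norm_toBCF_eq_norm]
  exact BoundedContinuousFunction.norm_coe_le_norm x.toBCF n

noncomputable def czModel (𝕜 : Type*) [RCLike 𝕜] : SeqModel 𝕜 C₀(ℕ, 𝕜) where
  c := czC 𝕜
  inj := fun x y h => by
    ext n
    exact congrFun h n
  coord := cz_coord
  solid := fun x y h => cz_norm_le x (norm_nonneg _) (fun n => (h n).trans (cz_coord y n))
  mem := fun a y h => by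
    refine ⟨mkC0 a ?_, rfl⟩
    exact squeeze_zero_norm h (tendsto_zero_iff_norm_tendsto_zero.mp (cz_tendsto y))
  shift := fun x => by
    refine ⟨mkC0 (fun n => x (n + 1)) ((tendsto_add_atTop_iff_nat 1).mpr (cz_tendsto x)), rfl, ?_⟩
    exact cz_norm_le _ (norm_nonneg _) (fun n => cz_coord x (n + 1))
  small := fun x ε hε => by
    have h := (Metric.tendsto_atTop.mp (cz_tendsto x)) ε hε
    obtain ⟨N, hN⟩ := h
    refine ⟨N, fun j hj y hy => cz_norm_le y hε.le (fun n => ?_)⟩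
    have h2 := hN (n + j) (by omega)
    rw [dist_zero_right] at h2
    exact (hy n).trans h2.le
  dens := fun x ε hε => by
    obtain ⟨N, hN⟩ := (Metric.tendsto_atTop.mp (cz_tendsto x)) (ε / 2) (half_pos hε)
    have ht : Tendsto (fun n => if n < N then x n else 0) atTop (𝓝 0) := by
      apply tendsto_const_nhds.congr'
      filter_upwards [eventually_ge_atTop N] with n hn
      rw [if_neg (not_lt.mpr hn)]
    refine ⟨mkC0 (fun n => if n < N then x n else 0) ht, ⟨N, fun n hn => ?_⟩, ?_⟩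
    · show (if n < N then x n else 0) = 0
      rw [if_neg (not_lt.mpr hn)]
    · refine lt_of_le_of_lt (cz_norm_le _ (half_pos hε).le (fun n => ?_)) (half_lt_self hε)
      show ‖x n - (if n < N then x n else 0)‖ ≤ ε / 2
      split_ifs with h
      · rw [sub_self, norm_zero]; exact (half_pos hε).le
      · rw [sub_zero]
        have h2 := hN n (not_lt.mp h)
        rw [dist_zero_right] at h2
        exact h2.le
  ell1 := fun a ha => by
    refine ⟨mkC0 a ?_, rfl⟩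
    exact tendsto_zero_iff_norm_tendsto_zero.mpr ha.tendsto_atTop_zero

end Models

/-- **Weighted backward shifts with an exact distributional chaos exponent.**
For each `lam ∈ (0, 1]` and each of the spaces `ℓ^p` (`1 ≤ p < ∞`) and `c₀`, over `ℝ` or `ℂ`,
there is a weighted backward shift `(T x)_n = w_n x_{n+1}` with positive bounded weights that is
densely `lam`-distributionally chaotic, but not `lam'`-distributionally chaotic for any
`0 < lam' < lam`. -/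
theorem result {𝕜 : Type*} [RCLike 𝕜] (lam : ℝ) (h0 : 0 < lam) (h1 : lam ≤ 1) :
    (∀ (p : ℝ≥0∞) [Fact (1 ≤ p)], p ≠ ∞ →
      HasExactShift 𝕜 (lp (fun _ : ℕ => 𝕜) p) (fun x n => x n) lam) ∧
    HasExactShift 𝕜 C₀(ℕ, 𝕜) (fun x n => x n) lam := by
  constructor
  · intro p _ hp
    obtain ⟨w, T, hw, hw2, hT, h⟩ := main_model (lpModel 𝕜 p hp) h0 h1
    exact ⟨w, T, hw, ⟨2, hw2⟩, hT, h⟩
  · obtain ⟨w, T, hw, hw2, hT, h⟩ := main_model (czModel 𝕜) h0 h1
    exact ⟨w, T, hw, ⟨2, hw2⟩, hT, h⟩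

end Pool.Agent.Results.MP_39b2af_an.ExactExponent
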